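import Pool.Agent.H96.RecUni

set_option autoImplicit false

open MeasureTheory
open scoped ENNReal

namespace Pool.Agent.Results.MP_868dd6_pr.PowersTransient

open Pool.Agent.H96.Rec

/-- There is a recurrent unimodular random rooted graph whose root degree has an exponential tail
and all of whose powers `G^k`, `k ≥ 2`, are almost surely transient. -/
theorem result :
    ∃ (V : Type) (_ : Countable V) (Ω : Type) (_ : MeasurableSpace Ω) (P : Measure Ω)
      (G : Ω → SimpleGraph V) (ρ : Ω → V),
      IsRandomRootedGraph P G ρ ∧
      IsUnimodular P G ρ ∧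
      (∀ᵐ ω ∂P, RecurrentAt (G ω) (ρ ω)) ∧
      ExpTail P G ρ ∧
      ∀ k : ℕ, 2 ≤ k → ∀ᵐ ω ∂P, ¬ RecurrentAt (power (G ω) k) (ρ ω) := by
  refine ⟨CV, inferInstance, ℕ, inferInstance, PM, fun _ => CG, root, ?_, CG_unimodular,
    Filter.Eventually.of_forall CG_recurrent, CG_expTail,
    fun k hk => Filter.Eventually.of_forall (CG_power_transient k hk)⟩
  exact
    { prob := inferInstance
      meas_adj := fun _ _ => MeasurableSet.of_discrete
      meas_root := fun _ => MeasurableSet.of_discrete
      connected := Filter.Eventually.of_forall (fun _ => CG_connected)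
      locally_finite := Filter.Eventually.of_forall (fun _ => CG_finite) }

end Pool.Agent.Results.MP_868dd6_pr.PowersTransient
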